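import Pool.Agent.V11139.RL.Abs
import Pool.Agent.Y771.NF.Dn
import Pool.Agent.Y67.GL.TOTH

set_option autoImplicit false
set_option maxHeartbeats 1000000

/-!
# Newforms with real coefficients satisfy `ZD`
-/

namespace Pool.Agent.V11139.RL

open UpperHalfPlane hiding I
open MatrixGroups CongruenceSubgroup Filter Topology Complex MeasureTheory
open Pool.Agent.Y671.GL
open Pool.Agent.Y771.NF (Xf Lam all_of Lam_fe off OffD ordNat_symm)
open Pool.Agent.Y771.NF.Cnt (num num_ge order_rot rot_inv)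
open scoped ComplexConjugate

lemma ord_neg {X : ℂ → ℂ} (hX : Differentiable ℂ X) {v : ℂ} (hv : v ≠ 0) (h : ∀ s, X (-s) = v * X s) (s : ℂ) :
    analyticOrderNatAt X (-s) = analyticOrderNatAt X s := by
  have hg : AnalyticAt ℂ (fun z : ℂ => -z) s := by fun_prop
  have hg' : deriv (fun z : ℂ => -z) s ≠ 0 := by
    have : HasDerivAt (fun z : ℂ => -z) (-1) s := (hasDerivAt_id s).neg
    rw [this.deriv]
    norm_num
  have h2 : analyticOrderAt (X ∘ fun z => -z) s = analyticOrderAt X (-s) :=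
    analyticOrderAt_comp_of_deriv_ne_zero hg hg'
  have h1 : (X ∘ fun z => -z) = (fun _ => v) * X := by
    funext z
    exact h z
  have h3 : analyticOrderAt (fun _ : ℂ => v) s = 0 := by
    rw [AnalyticAt.analyticOrderAt_eq_zero analyticAt_const]
    exact hv
  have h4 : analyticOrderAt X (-s) = analyticOrderAt X s := by
    rw [← h2, h1, analyticOrderAt_mul analyticAt_const (hX.analyticAt s), h3, zero_add]
  unfold analyticOrderNatAt
  rw [h4]

variable {N : ℕ} [NeZero N] {k : ℕ} {f : CuspForm (Gamma0 N : Subgroup (GL (Fin 2) ℝ)) (k : ℤ)} {ε : ℝ}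

/-- **Newforms with real coefficients.** -/
theorem zd_newf (hk : 1 ≤ k) (hf : W388.IsNewf N k f ε) : ∃ u : ℂ, u ≠ 0 ∧ ZD (Xf f u) := by
  obtain ⟨u, H, Z, hu, hGG, hst, -, -, -⟩ := all_of hk hf
  have hX : Differentiable ℂ (Xf f u) := hGG.cg.cf.diff
  have hne : ∃ z, Xf f u z ≠ 0 := by
    refine ⟨1, fun h0 => ?_⟩
    have := hst 1 h0
    norm_num at this
  have hrot : ∀ z, Lam f ((k : ℂ) / 2 + I * z) = u⁻¹ * Xf f u (I * z) := by
    intro z
    rw [Xf, inv_mul_cancel_left₀ hu]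
  refine ⟨u, hu, ⟨hX, hst, ordNat_symm hX hGG.cg.cf.symm, ord_neg hX (v := (ε : ℂ)) ?_ ?_, fun c hc => ?_, ?_⟩⟩
  · rcases hf.sign with h | h <;> rw [h] <;> norm_num
  · intro s
    unfold Xf
    rw [show (k : ℂ) / 2 + -s = k - ((k : ℂ) / 2 + s) by ring, Lam_fe hk hf]
    ring
  · obtain ⟨C, hC, h⟩ := off hk hf (fun z => Lam f ((k : ℂ) / 2 + I * z)) (fun z => rfl) hc
    refine ⟨C, hC, fun δ T hδ hT S hS => ?_⟩
    obtain ⟨h1, h2⟩ := h δ T hδ hT
    refine (num_ge (inv_ne_zero hu) hX hrot h1 fun s hs => ?_).trans h2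
    obtain ⟨a, b, c1, d⟩ := hS s hs
    refine ⟨?_, ?_, ?_, ?_⟩
    · show Lam f ((k : ℂ) / 2 + I * (-I * s)) = 0
      rw [hrot, rot_inv, a, mul_zero]
    · have : (-I * s).im = -s.re := by simp
      rw [this, abs_neg]
      exact b
    · have : (-I * s).re = s.im := by simp
      rw [this]
      exact c1
    · have : (-I * s).re = s.im := by simp
      rw [this]
      exact d
  · obtain ⟨K0, hK0, hslow⟩ := hGG.cg.slow
    obtain ⟨g0, -⟩ := Pool.Agent.Y275.GL.hht (Xf f u) (slow_of hX hK0 hslow) hGG.cg.cf.symm hne hst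
    obtain ⟨c, T0, hc, hT0, h⟩ := Pool.Agent.Y67.GL.toth 1 H _ Z (by norm_num) hGG.cg hst 1 le_rfl
    have hl2 : 0 < Real.log 2 := Real.log_pos (by norm_num)
    refine ⟨c * Real.log 2, T0, by positivity, fun T hT => ?_⟩
    obtain ⟨S, hS, hS2⟩ := h T 0 hT le_rfl (by norm_num) (by rw [zero_mul]; norm_num)
    simp only [g0] at hS hS2
    refine ⟨S, hS, le_trans ?_ hS2⟩
    have hT1 : 0 < T := by linarith
    have h3 : Real.log 2 ≤ Real.log T := Real.log_le_log (by norm_num) (hT0.trans hT)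
    calc c * Real.log 2 * T = c * T * Real.log 2 := by ring
      _ ≤ c * T * Real.log T := by gcongr

/-- rotation of the Li coefficients -/
theorem li_rot {X G : ℂ → ℂ} {v : ℂ} (hv : v ≠ 0) (hX : Differentiable ℂ X) (hG : ∀ z, G z = v * X (I * z))
    (A : ℝ) (n : ℕ) :
    ∑' z : ℂ, (analyticOrderNatAt G z : ℝ) * (1 - ((I * z - A) / (I * z + A)) ^ n).re = liX X A n := by
  unfold liX
  rw [← (Equiv.mulLeft₀ I I_ne_zero).tsum_eq
    (fun s : ℂ => (analyticOrderNatAt X s : ℝ) * (1 - ((s - A) / (s + A)) ^ n).re)]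
  refine tsum_congr fun z => ?_
  rw [order_rot hv hX hG]
  rfl

theorem summable_rot {X G : ℂ → ℂ} {v : ℂ} (h : ZD X) (hv : v ≠ 0) (hG : ∀ z, G z = v * X (I * z))
    {A : ℝ} (hA : 1 ≤ A) (n : ℕ) :
    Summable fun z : ℂ => (analyticOrderNatAt G z : ℝ) * (1 - ((I * z - A) / (I * z + A)) ^ n).re := by
  refine ((Equiv.mulLeft₀ I I_ne_zero).summable_iff.2 (h.summable hA n)).congr fun z => ?_
  rw [order_rot hv h.diff hG]
  rfl

end Pool.Agent.V11139.RL
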