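import Pool.Agent.V11271.LI.Pos
import Pool.Agent.V11271.LI.Neg
import Pool.Agent.V11271.LI.Abs

set_option autoImplicit false
set_option maxHeartbeats 1000000

/-!
# Li coefficients with a far centre for entire functions whose zeros satisfy a linear density estimate

The central line is the imaginary axis. If the number of zeros with `δ ≤ |Re s|`, `|Im s| ≤ T` is
`O(T^(1 - c δ) log T)` for every `c < 1` and all zeros satisfy `|Re s| ≤ h`, then the Li coefficients with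
centre `A` are positive for `n ≤ κ A log A`, `κ < 1/2 + 1/(2h)`.
-/

namespace Pool.Agent.V11139.RL

open Complex Filter Topology
open scoped ComplexConjugate
open Pool.Agent.V11271.LI

/-- The hypotheses on the zeros. -/
structure ZD (X : ℂ → ℂ) : Prop where
  diff : Differentiable ℂ X
  strip : ∀ s : ℂ, X s = 0 → |s.re| ≤ 1 / 2
  ord : ∀ s : ℂ, analyticOrderNatAt X (-(conj s)) = analyticOrderNatAt X s
  ord2 : ∀ s : ℂ, analyticOrderNatAt X (-s) = analyticOrderNatAt X s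
  dens : ∀ c : ℝ, c < 1 → ∃ C : ℝ, 0 < C ∧ ∀ δ T : ℝ, 0 ≤ δ → 2 ≤ T → ∀ S : Finset ℂ,
    (∀ s ∈ S, X s = 0 ∧ δ ≤ |s.re| ∧ 0 < s.im ∧ s.im ≤ T) →
      ∑ s ∈ S, (analyticOrderNatAt X s : ℝ) ≤ C * T ^ (1 - c * δ) * Real.log T
  low : ∃ c T0 : ℝ, 0 < c ∧ ∀ T : ℝ, T0 ≤ T → ∃ S : Finset ℂ,
    (∀ s ∈ S, X s = 0 ∧ T < s.im ∧ s.im ≤ 2 * T) ∧ c * T ≤ ∑ s ∈ S, (analyticOrderNatAt X s : ℝ)

/-- the Li coefficients with centre `A` -/
noncomputable def liX (X : ℂ → ℂ) (A : ℝ) (n : ℕ) : ℝ :=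
  ∑' s : ℂ, (analyticOrderNatAt X s : ℝ) * (1 - ((s - A) / (s + A)) ^ n).re

section

variable {X : ℂ → ℂ}

lemma ZD.one_ne (h : ZD X) : X 1 ≠ 0 := by
  intro h0
  have := h.strip 1 h0
  norm_num at this

lemma ZD.ord_ne_top (h : ZD X) (s : ℂ) : analyticOrderAt X s ≠ ⊤ := by
  intro ht
  rw [analyticOrderAt_eq_top] at ht
  have h1 : AnalyticOnNhd ℂ X Set.univ := fun z _ => h.diff.analyticAt z
  have h2 := h1.eqOn_zero_of_preconnected_of_eventuallyEq_zero isPreconnected_univ (Set.mem_univ s) ht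
  exact h.one_ne (h2 (Set.mem_univ 1))

lemma ZD.ord_iff (h : ZD X) (s : ℂ) : X s = 0 ↔ 1 ≤ analyticOrderNatAt X s := by
  have ha := h.diff.analyticAt s
  constructor
  · intro h0
    rw [Nat.one_le_iff_ne_zero]
    intro h1
    have h2 : analyticOrderAt X s = 0 := by
      have := Nat.cast_analyticOrderNatAt (h.ord_ne_top s)
      rw [h1] at this
      simpa using this.symm
    exact (ha.analyticOrderAt_eq_zero.1 h2) h0
  · intro h1
    by_contra h0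
    have h2 := ha.analyticOrderAt_eq_zero.2 h0
    unfold analyticOrderNatAt at h1
    rw [h2] at h1
    simp at h1

/-- the zeros -/
abbrev Zx (X : ℂ → ℂ) : Type := {s : ℂ // X s = 0}

/-- the position -/
def zX (X : ℂ → ℂ) (ρ : Zx X) : ℂ := (ρ : ℂ)

/-- the multiplicity -/
noncomputable def mX (X : ℂ → ℂ) (ρ : Zx X) : ℝ := (analyticOrderNatAt X (ρ : ℂ) : ℝ)

lemma mX_nonneg (ρ : Zx X) : 0 ≤ mX X ρ := Nat.cast_nonneg _

lemma ZD.one_le (h : ZD X) (ρ : Zx X) : 1 ≤ mX X ρ := by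
  unfold mX
  exact_mod_cast (h.ord_iff _).1 ρ.2

/-- reflection in the imaginary axis -/
noncomputable def ZD.reflE (h : ZD X) : Zx X ≃ Zx X where
  toFun ρ := ⟨-(conj (ρ : ℂ)), by rw [h.ord_iff, h.ord]; exact (h.ord_iff _).1 ρ.2⟩
  invFun ρ := ⟨-(conj (ρ : ℂ)), by rw [h.ord_iff, h.ord]; exact (h.ord_iff _).1 ρ.2⟩
  left_inv ρ := by ext; simp
  right_inv ρ := by ext; simp

lemma ZD.fin (h : ZD X) (T : ℝ) : {s : ℂ | X s = 0 ∧ |s.im| ≤ T}.Finite := by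
  have hK : IsCompact (Set.Icc (-(1 / 2 : ℝ)) (1 / 2) ×ℂ Set.Icc (-T) T) := isCompact_Icc.reProdIm isCompact_Icc
  have h1 : AnalyticOnNhd ℂ X Set.univ := fun z _ => h.diff.analyticAt z
  have h2 : {s : ℂ | X s ≠ 0} ∈ codiscrete ℂ := by
    rcases h1.eqOn_zero_or_eventually_ne_zero_of_preconnected isPreconnected_univ with h3 | h3
    · exact absurd (h3 (Set.mem_univ 1)) h.one_ne
    · exact h3
  have h3 : {s : ℂ | X s ≠ 0} ∈ codiscreteWithin (Set.Icc (-(1 / 2 : ℝ)) (1 / 2) ×ℂ Set.Icc (-T) T) :=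
    codiscreteWithin_mono (Set.subset_univ _) h2
  refine (hK.finite_sdiff_of_mem_codiscreteWithin h3).subset ?_
  rintro s ⟨h4, h5⟩
  refine ⟨?_, by simpa using h4⟩
  rw [Complex.mem_reProdIm]
  exact ⟨abs_le.1 (h.strip s h4), abs_le.1 h5⟩

lemma ZD.half (h : ZD X) {δ e : ℝ} (hδ : 0 ≤ δ) (hδ2 : δ ≤ 1 / 2) (he : 0 < e) : ∃ C : ℝ, 0 < C ∧
    ∀ T : ℝ, 1 ≤ T → ∀ S : Finset ℂ, (∀ s ∈ S, X s = 0 ∧ δ ≤ |s.re| ∧ 0 < s.im ∧ s.im ≤ T) →
      ∑ s ∈ S, (analyticOrderNatAt X s : ℝ) ≤ C * T ^ (1 - δ + e) := by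
  obtain ⟨C, hC, H⟩ := h.dens (1 - e) (by linarith)
  refine ⟨C * (2 ^ (1 - δ + e) / (e / 2)), by positivity, fun T hT S hS => ?_⟩
  have h1 := H δ (2 * T) hδ (by linarith) S (fun s hs => by
    obtain ⟨a, b, c, d⟩ := hS s hs
    exact ⟨a, b, c, by linarith⟩)
  refine h1.trans ?_
  have hT0 : 0 < 2 * T := by linarith
  have h2 : Real.log (2 * T) ≤ (2 * T) ^ (e / 2) / (e / 2) := Real.log_le_rpow_div hT0.le (by positivity)
  calc C * (2 * T) ^ (1 - (1 - e) * δ) * Real.log (2 * T)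
      ≤ C * (2 * T) ^ (1 - (1 - e) * δ) * ((2 * T) ^ (e / 2) / (e / 2)) := by gcongr
    _ = C * ((2 * T) ^ (1 - (1 - e) * δ + e / 2) / (e / 2)) := by
        rw [Real.rpow_add hT0]
        ring
    _ ≤ C * ((2 * T) ^ (1 - δ + e) / (e / 2)) := by
        apply mul_le_mul_of_nonneg_left _ hC.le
        apply div_le_div_of_nonneg_right _ (by positivity)
        apply Real.rpow_le_rpow_of_exponent_le (by linarith)
        nlinarith
    _ = C * (2 ^ (1 - δ + e) / (e / 2)) * T ^ (1 - δ + e) := by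
        rw [Real.mul_rpow (by norm_num) (by linarith)]
        ring

lemma ZD.count (h : ZD X) {δ e : ℝ} (hδ : 0 ≤ δ) (hδ2 : δ ≤ 1 / 2) (he : 0 < e) : ∃ C : ℝ, 0 < C ∧
    ∀ T : ℝ, 1 ≤ T → ∀ S : Finset (Zx X), (∀ ρ ∈ S, δ ≤ |(zX X ρ).re| ∧ |(zX X ρ).im| ≤ T) →
      ∑ ρ ∈ S, mX X ρ ≤ C * T ^ (1 - δ + e) := by
  classical
  obtain ⟨C, hC, H⟩ := h.half hδ hδ2 he
  obtain ⟨C0, hC0⟩ : ∃ C0 : ℝ, C0 = ∑ s ∈ (h.fin 0).toFinset, (analyticOrderNatAt X s : ℝ) := ⟨_, rfl⟩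
  have hC00 : 0 ≤ C0 := by
    rw [hC0]
    exact Finset.sum_nonneg fun _ _ => Nat.cast_nonneg _
  refine ⟨2 * C + C0, by positivity, fun T hT S hS => ?_⟩
  have hT1 : 1 ≤ T ^ (1 - δ + e) := Real.one_le_rpow hT (by linarith)
  have e1 : ∑ ρ ∈ S, mX X ρ = ∑ s ∈ S.image (fun ρ : Zx X => (ρ : ℂ)), (analyticOrderNatAt X s : ℝ) := by
    rw [Finset.sum_image (fun a _ b _ hab => Subtype.ext hab)]
    rfl
  obtain ⟨R, hR⟩ : ∃ R : Finset ℂ, R = S.image (fun ρ : Zx X => (ρ : ℂ)) := ⟨_, rfl⟩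
  have hRm : ∀ s ∈ R, X s = 0 ∧ δ ≤ |s.re| ∧ |s.im| ≤ T := by
    intro s hs
    rw [hR, Finset.mem_image] at hs
    obtain ⟨ρ, hρ, rfl⟩ := hs
    exact ⟨ρ.2, (hS ρ hρ).1, (hS ρ hρ).2⟩
  rw [e1, ← hR, ← Finset.sum_filter_add_sum_filter_not R (fun s => 0 < s.im),
    ← Finset.sum_filter_add_sum_filter_not (R.filter fun s => ¬ 0 < s.im) (fun s => s.im < 0)]
  have b1 : ∑ s ∈ R.filter (fun s => 0 < s.im), (analyticOrderNatAt X s : ℝ) ≤ C * T ^ (1 - δ + e) := by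
    refine H T hT _ fun s hs => ?_
    rw [Finset.mem_filter] at hs
    obtain ⟨a, b, c⟩ := hRm s hs.1
    exact ⟨a, b, hs.2, (le_abs_self _).trans c⟩
  have b2 : ∑ s ∈ (R.filter fun s => ¬ 0 < s.im).filter (fun s => s.im < 0), (analyticOrderNatAt X s : ℝ) ≤
      C * T ^ (1 - δ + e) := by
    have e2 : ∑ s ∈ (R.filter fun s => ¬ 0 < s.im).filter (fun s => s.im < 0), (analyticOrderNatAt X s : ℝ) =
        ∑ s ∈ ((R.filter fun s => ¬ 0 < s.im).filter (fun s => s.im < 0)).image (fun s => -s),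
          (analyticOrderNatAt X s : ℝ) := by
      rw [Finset.sum_image (fun a _ b _ hab => neg_injective hab)]
      exact Finset.sum_congr rfl fun s _ => by rw [h.ord2]
    rw [e2]
    refine H T hT _ fun s hs => ?_
    rw [Finset.mem_image] at hs
    obtain ⟨w, hw, rfl⟩ := hs
    rw [Finset.mem_filter, Finset.mem_filter] at hw
    obtain ⟨a, b, c⟩ := hRm w hw.1.1
    refine ⟨?_, ?_, ?_, ?_⟩
    · rw [h.ord_iff, h.ord2]
      exact (h.ord_iff _).1 a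
    · rwa [Complex.neg_re, abs_neg]
    · rw [Complex.neg_im]
      linarith [hw.2]
    · rw [Complex.neg_im]
      exact (neg_le_abs _).trans c
  have b3 : ∑ s ∈ (R.filter fun s => ¬ 0 < s.im).filter (fun s => ¬ s.im < 0), (analyticOrderNatAt X s : ℝ) ≤ C0 := by
    rw [hC0]
    refine Finset.sum_le_sum_of_subset_of_nonneg (fun s hs => ?_) fun _ _ _ => Nat.cast_nonneg _
    rw [Finset.mem_filter, Finset.mem_filter] at hs
    rw [Set.Finite.mem_toFinset]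
    refine ⟨(hRm s hs.1.1).1, ?_⟩
    have : s.im = 0 := le_antisymm (not_lt.1 hs.1.2) (not_lt.1 hs.2)
    rw [this, abs_zero]
  have b4 : C0 ≤ C0 * T ^ (1 - δ + e) := le_mul_of_one_le_right hC00 hT1
  calc _ ≤ C * T ^ (1 - δ + e) + (C * T ^ (1 - δ + e) + C0 * T ^ (1 - δ + e)) :=
        add_le_add b1 (add_le_add b2 (b3.trans b4))
    _ = _ := by ring

/-- summability from counts -/
lemma sum_of_count {ι : Type*} {y m : ι → ℝ} (hm : ∀ i, 0 ≤ m i) (hy : ∀ i, 0 ≤ y i) {a s C : ℝ} (ha : a < s)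
    (hC : 0 < C) (H : ∀ T : ℝ, 1 ≤ T → ∀ S : Finset ι, (∀ i ∈ S, y i ≤ T) → ∑ i ∈ S, m i ≤ C * T ^ a) (ha0 : 0 ≤ a) :
    Summable fun i => m i / (1 + y i) ^ s := by
  have hs0 : 0 < s := by linarith
  obtain ⟨q, hq⟩ : ∃ q : ℝ, q = (2 : ℝ) ^ (a - s) := ⟨_, rfl⟩
  have hq0 : 0 < q := by rw [hq]; positivity
  have hq1 : q < 1 := by
    rw [hq]
    exact Real.rpow_lt_one_of_one_lt_of_neg (by norm_num) (by linarith)
  have hgeo : Summable fun k : ℕ => C * 2 ^ a * q ^ k := (summable_geometric_of_lt_one hq0.le hq1).mul_left _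
  refine summable_of_sum_le (c := ∑' k : ℕ, C * 2 ^ a * q ^ k) (fun i => ?_) fun S => ?_
  · have := hy i
    exact div_nonneg (hm i) (by positivity)
  · classical
    obtain ⟨f, hf⟩ : ∃ f : ι → ℕ, f = fun i => ⌊Real.logb 2 (1 + y i)⌋₊ := ⟨_, rfl⟩
    have hfl : ∀ i, (2 : ℝ) ^ (f i : ℝ) ≤ 1 + y i ∧ 1 + y i ≤ (2 : ℝ) ^ ((f i : ℝ) + 1) := by
      intro i
      have h1 := hy i
      have h2 : 0 ≤ Real.logb 2 (1 + y i) := Real.logb_nonneg (by norm_num) (by linarith)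
      have h3 : (f i : ℝ) ≤ Real.logb 2 (1 + y i) := by rw [hf]; exact Nat.floor_le h2
      have h4 : Real.logb 2 (1 + y i) ≤ f i + 1 := by rw [hf]; exact (Nat.lt_floor_add_one _).le
      constructor
      · rwa [← Real.le_logb_iff_rpow_le (by norm_num) (by linarith)]
      · rwa [← Real.logb_le_iff_le_rpow (by norm_num) (by linarith)]
    obtain ⟨N, hN⟩ : ∃ N : ℕ, ∀ i ∈ S, f i < N := by
      refine ⟨S.sup f + 1, fun i hi => ?_⟩
      have := Finset.le_sup (f := f) hi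
      omega
    rw [← Finset.sum_fiberwise_of_maps_to (t := Finset.range N) (g := f) (fun i hi => Finset.mem_range.2 (hN i hi))]
    refine le_trans (Finset.sum_le_sum fun k _ => ?_) (hgeo.sum_le_tsum _ fun k _ => by positivity)
    have h5 : ∑ i ∈ S.filter (fun i => f i = k), m i / (1 + y i) ^ s ≤
        ∑ i ∈ S.filter (fun i => f i = k), m i * (2 : ℝ) ^ (-(k * s)) := by
      refine Finset.sum_le_sum fun i hi => ?_
      rw [Finset.mem_filter] at hi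
      have h6 := (hfl i).1
      rw [hi.2] at h6
      rw [div_eq_mul_inv]
      apply mul_le_mul_of_nonneg_left _ (hm i)
      rw [Real.rpow_neg (by norm_num), Real.rpow_mul (by norm_num)]
      apply inv_anti₀ (by positivity)
      exact Real.rpow_le_rpow (by positivity) h6 hs0.le
    refine h5.trans ?_
    rw [← Finset.sum_mul]
    have h7 := H ((2 : ℝ) ^ ((k : ℝ) + 1)) (Real.one_le_rpow (by norm_num) (by positivity))
      (S.filter fun i => f i = k) (fun i hi => by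
        rw [Finset.mem_filter] at hi
        have h8 := (hfl i).2
        rw [hi.2] at h8
        linarith)
    calc (∑ i ∈ S.filter (fun i => f i = k), m i) * (2 : ℝ) ^ (-(k * s))
        ≤ (C * ((2 : ℝ) ^ ((k : ℝ) + 1)) ^ a) * (2 : ℝ) ^ (-(k * s)) := by gcongr
      _ = C * 2 ^ a * q ^ k := by
          rw [hq, ← Real.rpow_natCast, ← Real.rpow_mul (by norm_num), ← Real.rpow_mul (by norm_num), mul_assoc,
            mul_assoc, ← Real.rpow_add (by norm_num), ← Real.rpow_add (by norm_num)]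
          congr 2
          ring

/-- the zeros form a configuration -/
lemma ZD.cfg (h : ZD X) : Cfg (zX X) (mX X) where
  one_le := h.one_le
  re_le ρ := h.strip _ ρ.2
  sum s hs := by
    obtain ⟨C, hC, H⟩ := h.count (δ := 0) (e := (s - 1) / 2) le_rfl (by norm_num) (by linarith)
    exact sum_of_count (y := fun ρ => |(zX X ρ).im|) mX_nonneg (fun _ => abs_nonneg _) (a := 1 - 0 + (s - 1) / 2)
      (by linarith) hC (fun T hT S hS => H T hT S fun ρ hρ => ⟨abs_nonneg _, hS ρ hρ⟩) (by linarith)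
  symm := ⟨h.reflE, fun _ => rfl, fun ρ => by
    show ((analyticOrderNatAt X (-(conj (ρ : ℂ))) : ℕ) : ℝ) = _
    rw [h.ord]
    rfl⟩

lemma ZD.lb (h : ZD X) : LB (zX X) (mX X) := by
  classical
  obtain ⟨c, T0, hc, H⟩ := h.low
  refine ⟨c, hc, max T0 0, fun T hT => ?_⟩
  obtain ⟨S, hS, hS2⟩ := H T ((le_max_left _ _).trans hT)
  have hT0 : 0 ≤ T := (le_max_right _ _).trans hT
  refine ⟨S.subtype (fun s => X s = 0), fun ρ hρ => ?_, ?_⟩
  · rw [Finset.mem_subtype] at hρ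
    obtain ⟨_, h1, h2⟩ := hS _ hρ
    show T ≤ |(ρ : ℂ).im| ∧ |(ρ : ℂ).im| ≤ 2 * T
    rw [abs_of_nonneg (by linarith)]
    exact ⟨h1.le, h2⟩
  · refine hS2.trans (le_of_eq ?_)
    have e1 := Finset.sum_subtype_eq_sum_filter (s := S) (p := fun s => X s = 0)
      (fun s : ℂ => (analyticOrderNatAt X s : ℝ))
    have e2 : S.filter (fun s => X s = 0) = S := Finset.filter_true_of_mem fun s hs => (hS s hs).1
    rw [e2] at e1
    exact e1.symm

lemma ZD.adm (h : ZD X) {h0 κ : ℝ} (hh0 : 0 < h0) (hh2 : h0 ≤ 1 / 2) (hz : ∀ s : ℂ, X s = 0 → |s.re| ≤ h0)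
    (hκ : 0 < κ) (hκ2 : 2 * h0 * κ < 1 + h0) : Adm (zX X) (mX X) κ := by
  refine adm_of_dens mX_nonneg hh0 hκ (fun ρ => hz _ ρ.2) (a := fun t => 1 - t) (M := max 1 (2 * κ * h0 + (1 - h0)))
    ?_ ?_ ?_ ?_
  · intro t h1 h2
    constructor <;> linarith
  · exact max_lt (by norm_num) (by nlinarith)
  · intro t h1 h2
    rcases le_or_gt (2 * κ) 1 with hc | hc
    · exact le_trans (by nlinarith) (le_max_left _ _)
    · exact le_trans (by nlinarith) (le_max_right _ _)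
  · intro t h1 h2 e he
    exact h.count h1 (by linarith) he

lemma ZD.supp (h : ZD X) (A : ℝ) (n : ℕ) :
    Function.support (fun s : ℂ => (analyticOrderNatAt X s : ℝ) * (1 - ((s - A) / (s + A)) ^ n).re) ⊆
      {s : ℂ | X s = 0} := by
  intro s hs
  show X s = 0
  by_contra h0
  apply hs
  have : analyticOrderNatAt X s = 0 := by
    by_contra h1
    exact h0 ((h.ord_iff s).2 (Nat.one_le_iff_ne_zero.2 h1))
  simp only
  rw [this, Nat.cast_zero, zero_mul]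

lemma ZD.li_eq (h : ZD X) (A : ℝ) (n : ℕ) : lam (zX X) (mX X) A n = liX X A n := by
  unfold lam liX
  exact tsum_subtype_eq_of_support_subset (h.supp A n)

theorem ZD.summable (h : ZD X) {A : ℝ} (hA : 1 ≤ A) (n : ℕ) :
    Summable fun s : ℂ => (analyticOrderNatAt X s : ℝ) * (1 - ((s - A) / (s + A)) ^ n).re := by
  have h1 := h.cfg.summable_lam hA n
  rw [← Function.Injective.summable_iff (g := ((↑) : Zx X → ℂ)) Subtype.val_injective]
  · exact h1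
  · intro s hs
    by_contra h2
    exact hs ⟨⟨s, h.supp A n h2⟩, rfl⟩

theorem ZD.pos (h : ZD X) {h0 κ : ℝ} (hh0 : 0 < h0) (hh2 : h0 ≤ 1 / 2) (hz : ∀ s : ℂ, X s = 0 → |s.re| ≤ h0)
    (hκ : 0 < κ) (hκ2 : 2 * h0 * κ < 1 + h0) : ∃ c : ℝ, 0 < c ∧ ∃ A0 : ℝ, 2 ≤ A0 ∧ ∀ A : ℝ, A0 ≤ A →
      ∀ n : ℕ, 1 ≤ n → n ≤ κ * A * Real.log A → c * (n * A) ≤ liX X A n := by
  obtain ⟨c, hc, A0, hA0, H⟩ := h.cfg.pos h.lb hκ (h.adm hh0 hh2 hz hκ hκ2)
  exact ⟨c, hc, A0, hA0, fun A hA n hn hnA => by rw [← h.li_eq]; exact H A hA n hn hnA⟩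

theorem ZD.neg (h : ZD X) {κ : ℝ} (H : ∃ A0 : ℝ, ∀ A : ℝ, A0 ≤ A → ∀ n : ℕ, 1 ≤ n → n ≤ κ * A * Real.log A →
    0 ≤ liX X A n) {s : ℂ} (hs : X s = 0) : κ * |s.re| ≤ 1 := by
  obtain ⟨A0, hA0⟩ := H
  exact h.cfg.neg ⟨A0, fun A hA n hn hnA => by rw [h.li_eq]; exact hA0 A hA n hn hnA⟩ ⟨s, hs⟩

end

end Pool.Agent.V11139.RL
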